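import Pool.Agent.H420.Gr

/-!
# Broadcast dimension of finite graphs: definitions and graphs with a universal vertex
-/

namespace Pool.Agent.Helper97_BD

open Pool.Agent.NPC Pool.Agent.H420.Gr

/-- The truncated distance `d_k(x, y) = min (d(x, y)) (k + 1)`; the distance of two vertices in
different components is infinite. -/
noncomputable def dk {V : Type} (G : SimpleGraph V) (k : ℕ) (x y : V) : ℕ∞ :=
  min (G.edist x y) ((k : ℕ∞) + 1)

/-- `f` is a resolving broadcast: for every two distinct vertices `x`, `y` there is a vertex `z`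
with `f z = i > 0` and `d_i(x, z) ≠ d_i(y, z)`. -/
def IsResolvingBroadcast {V : Type} (G : SimpleGraph V) (f : V → ℕ) : Prop :=
  ∀ x y : V, x ≠ y → ∃ z : V, 0 < f z ∧ dk G (f z) x z ≠ dk G (f z) y z

/-- The broadcast dimension: the least total value of a resolving broadcast. -/
noncomputable def bdim {V : Type} [Fintype V] (G : SimpleGraph V) : ℕ :=
  sInf {s | ∃ f : V → ℕ, IsResolvingBroadcast G f ∧ ∑ v, f v = s}

/-- The decision problem: given the adjacency matrix of a finite simple graph and a number `k`, is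
the broadcast dimension of the graph at most `k`? -/
def BroadcastDim (I : List (List Bool) × ℕ) : Prop := bdim (graphOf I.1) ≤ I.2

variable {V : Type} {G : SimpleGraph V}

theorem one_isResolving : IsResolvingBroadcast G (fun _ => 1) := by
  intro x y hxy
  refine ⟨x, Nat.one_pos, ?_⟩
  unfold dk
  rw [SimpleGraph.edist_self]
  have h : 0 < G.edist y x := SimpleGraph.edist_pos_of_ne hxy.symm
  have h2 : (0 : ℕ∞) < ((1 : ℕ) : ℕ∞) + 1 := by norm_num
  rw [min_eq_left (zero_le)]
  exact (lt_min h h2).ne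

theorem bdim_le_iff [Fintype V] {k : ℕ} :
    bdim G ≤ k ↔ ∃ f : V → ℕ, IsResolvingBroadcast G f ∧ ∑ v, f v ≤ k := by
  constructor
  · intro h
    have hne : {s | ∃ f : V → ℕ, IsResolvingBroadcast G f ∧ ∑ v, f v = s}.Nonempty :=
      ⟨_, _, one_isResolving, rfl⟩
    obtain ⟨f, hf, hs⟩ := Nat.sInf_mem hne
    exact ⟨f, hf, by rw [hs]; exact h⟩
  · rintro ⟨f, hf, hs⟩
    exact le_trans (Nat.sInf_le ⟨f, hf, rfl⟩) hs

/-- A vertex `z` with `f z > 0` resolves `x`, `y` if `z = x`, or `z = y`, or `z` is adjacent to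
exactly one of `x`, `y`. -/
theorem resolves_of {i : ℕ} (hi : 0 < i) {x y z : V} (hxy : x ≠ y)
    (h : z = x ∨ z = y ∨ ¬ (G.Adj z x ↔ G.Adj z y)) : dk G i x z ≠ dk G i y z := by
  have key0 : ∀ a b : V, a ≠ b → dk G i a a ≠ dk G i b a := by
    intro a b hab
    unfold dk
    rw [SimpleGraph.edist_self]
    have h : 0 < G.edist b a := SimpleGraph.edist_pos_of_ne hab.symm
    have h2 : (0 : ℕ∞) < (i : ℕ∞) + 1 := by positivity
    rw [min_eq_left zero_le]
    exact (lt_min h h2).ne
  have key1 : ∀ a b c : V, c ≠ a → c ≠ b → G.Adj c a → ¬ G.Adj c b →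
      dk G i a c ≠ dk G i b c := by
    intro a b c hca hcb h1 h2
    unfold dk
    have e1 : G.edist a c = 1 := SimpleGraph.edist_eq_one_iff_adj.2 h1.symm
    have e2 : 1 < G.edist b c := by
      by_contra hlt
      rcases SimpleGraph.edist_le_one_iff_adj_or_eq.1 (not_lt.1 hlt) with h | h
      · exact h2 h.symm
      · exact hcb h.symm
    have e3 : (1 : ℕ∞) < (i : ℕ∞) + 1 := by
      have : ((1 : ℕ) : ℕ∞) < ((i + 1 : ℕ) : ℕ∞) := by exact_mod_cast Nat.lt_succ_of_le hi
      simpa using this
    rw [e1, min_eq_left e3.le]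
    exact (lt_min e2 e3).ne
  by_cases hx : z = x
  · subst hx; exact key0 _ _ hxy
  · by_cases hy : z = y
    · subst hy; exact (key0 _ _ hxy.symm).symm
    · have h' : ¬ (G.Adj z x ↔ G.Adj z y) := by
        rcases h with h | h | h
        · exact absurd h hx
        · exact absurd h hy
        · exact h
      by_cases h1 : G.Adj z x
      · exact key1 _ _ _ hx hy h1 (fun h2 => h' ⟨fun _ => h2, fun _ => h1⟩)
      · have h2 : G.Adj z y := by
          by_contra h2
          exact h' ⟨fun h => absurd h h1, fun h => absurd h h2⟩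
        exact (key1 _ _ _ hy hx h2 h1).symm

/-- In a graph with a universal vertex, these are the only vertices resolving `x`, `y`. -/
theorem of_resolves {u : V} (hu : ∀ v, v ≠ u → G.Adj u v) {i : ℕ} {x y z : V}
    (h : dk G i x z ≠ dk G i y z) : z = x ∨ z = y ∨ ¬ (G.Adj z x ↔ G.Adj z y) := by
  by_contra hcon
  push Not at hcon
  obtain ⟨hx, hy, hxy⟩ := hcon
  apply h
  unfold dk
  have two : ∀ a : V, z ≠ a → ¬ G.Adj z a → G.edist a z = 2 := by
    intro a ha hna
    rw [SimpleGraph.edist_eq_two_iff]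
    refine ⟨ha.symm, fun h => hna h.symm, u, ?_⟩
    rw [SimpleGraph.mem_commonNeighbors]
    have h1 : a ≠ u := by
      rintro rfl
      exact hna (hu z ha).symm
    have h2 : z ≠ u := by
      rintro rfl
      exact hna (hu a ha.symm)
    exact ⟨(hu a h1).symm, (hu z h2).symm⟩
  by_cases h1 : G.Adj z x
  · have h2 : G.Adj z y := hxy.1 h1
    rw [SimpleGraph.edist_eq_one_iff_adj.2 h1.symm, SimpleGraph.edist_eq_one_iff_adj.2 h2.symm]
  · have h2 : ¬ G.Adj z y := fun h => h1 (hxy.2 h)
    rw [two x hx h1, two y hy h2]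

end Pool.Agent.Helper97_BD
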