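import Pool.Agent.Helper97_BD.Main

/-!
# Computing the broadcast dimension is NP-hard: the reduction is computable in polynomial time
-/

namespace Pool.Agent.Helper97_BD

open Pool.Agent.NPC Pool.Agent.H420.Gr

theorem correct {v m : ℕ} {var : ℕ → ℕ} {sgn : ℕ → Bool} (hm : 1 ≤ m)
    (hvar : ∀ o < 3 * m, var o < v) : bdim (HH v m var sgn) ≤ 2 * v + m + 2 + v ↔
      ∃ τ : ℕ → Bool, ∀ c < m, ∃ r < 3, τ (var (3 * c + r)) = sgn (3 * c + r) := by
  rw [bdim_le_iff]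
  constructor
  · rintro ⟨f, hf, hs⟩
    exact sat_of hf hs
  · intro h
    exact exists_of_sat hm hvar h

/-- The reduction. -/
def red (φ : List (Lit ℕ × Lit ℕ × Lit ℕ)) : List (List Bool) × ℕ :=
  (mat (4 * (2 * (3 * φ.length) + φ.length) + 5) (adj (3 * φ.length) φ.length (vr φ) (sg φ)),
    2 * (3 * φ.length) + φ.length + 2 + 3 * φ.length)

theorem poly_isLit {α : Type} [TEnc α] {φ : α → List (Lit ℕ × Lit ℕ × Lit ℕ)} {i o : α → ℕ}
    (hφ : Poly φ) (hi : Poly i) (ho : Poly o) :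
    Poly (fun a => isLit (vr (φ a)) (sg (φ a)) (i a) (o a)) := by
  unfold isLit
  exact NPC.Poly.and (Poly.decide_eq (poly_vr hφ ho) (Poly.div hi (NPC.Poly.const 4)))
    (Poly.decide_eq (poly_sg hφ ho)
      (Poly.decide_eq (Poly.mod hi (NPC.Poly.const 4)) (NPC.Poly.const 0)))

theorem red_poly : Poly red := by
  have hl : UPoly (fun φ : List (Lit ℕ × Lit ℕ × Lit ℕ) => φ.length) := UPoly.length Poly.id
  have h3 : UPoly (fun φ : List (Lit ℕ × Lit ℕ × Lit ℕ) => 3 * φ.length) :=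
    UPoly.mul (UPoly.const 3) hl
  have hB : UPoly (fun φ : List (Lit ℕ × Lit ℕ × Lit ℕ) => 2 * (3 * φ.length) + φ.length) :=
    UPoly.add (UPoly.mul (UPoly.const 2) h3) hl
  have h4B : UPoly (fun φ : List (Lit ℕ × Lit ℕ × Lit ℕ) =>
      4 * (2 * (3 * φ.length) + φ.length)) := UPoly.mul (UPoly.const 4) hB
  have hN : UPoly (fun φ : List (Lit ℕ × Lit ℕ × Lit ℕ) =>
      4 * (2 * (3 * φ.length) + φ.length) + 5) := UPoly.add h4B (UPoly.const 5)
  have hk : UPoly (fun φ : List (Lit ℕ × Lit ℕ × Lit ℕ) =>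
      2 * (3 * φ.length) + φ.length + 2 + 3 * φ.length) :=
    UPoly.add (UPoly.add hB (UPoly.const 2)) h3
  unfold red
  refine Poly.pair ?_ hk.toPoly
  refine poly_mat (n := fun φ : List (Lit ℕ × Lit ℕ × Lit ℕ) =>
      4 * (2 * (3 * φ.length) + φ.length) + 5)
    (A := fun φ i j => adj (3 * φ.length) φ.length (vr φ) (sg φ) i j) hN ?_
  unfold adj
  have hφ : Poly (fun x : (List (Lit ℕ × Lit ℕ × Lit ℕ) × ℕ) × ℕ => x.1.1) :=
    Poly.fst (Poly.fst Poly.id)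
  have hi : Poly (fun x : (List (Lit ℕ × Lit ℕ × Lit ℕ) × ℕ) × ℕ => x.1.2) :=
    Poly.snd (Poly.fst Poly.id)
  have hj : Poly (fun x : (List (Lit ℕ × Lit ℕ × Lit ℕ) × ℕ) × ℕ => x.2) := Poly.snd Poly.id
  have gv : Poly (fun x : (List (Lit ℕ × Lit ℕ × Lit ℕ) × ℕ) × ℕ => 3 * x.1.1.length) :=
    h3.toPoly.comp hφ
  have g2v : Poly (fun x : (List (Lit ℕ × Lit ℕ × Lit ℕ) × ℕ) × ℕ => 2 * (3 * x.1.1.length)) :=
    Poly.mul (NPC.Poly.const 2) gv
  have g4B : Poly (fun x : (List (Lit ℕ × Lit ℕ × Lit ℕ) × ℕ) × ℕ =>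
    4 * (2 * (3 * x.1.1.length) + x.1.1.length)) := h4B.toPoly.comp hφ
  have hi4 : Poly (fun x : (List (Lit ℕ × Lit ℕ × Lit ℕ) × ℕ) × ℕ => x.1.2 / 4) :=
    Poly.div hi (NPC.Poly.const 4)
  have hj4 : Poly (fun x : (List (Lit ℕ × Lit ℕ × Lit ℕ) × ℕ) × ℕ => x.2 / 4) :=
    Poly.div hj (NPC.Poly.const 4)
  have hi4' : Poly (fun x : (List (Lit ℕ × Lit ℕ × Lit ℕ) × ℕ) × ℕ => x.1.2 % 4) :=
    Poly.mod hi (NPC.Poly.const 4)
  have hj4' : Poly (fun x : (List (Lit ℕ × Lit ℕ × Lit ℕ) × ℕ) × ℕ => x.2 % 4) :=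
    Poly.mod hj (NPC.Poly.const 4)
  have ho : Poly (fun x : (List (Lit ℕ × Lit ℕ × Lit ℕ) × ℕ) × ℕ =>
    3 * (x.1.2 / 4 - 2 * (3 * x.1.1.length))) := Poly.mul (NPC.Poly.const 3) (Poly.sub hi4 g2v)
  have c0 : Poly (fun _ : (List (Lit ℕ × Lit ℕ × Lit ℕ) × ℕ) × ℕ => 0) := NPC.Poly.const 0
  have c1 : Poly (fun _ : (List (Lit ℕ × Lit ℕ × Lit ℕ) × ℕ) × ℕ => 1) := NPC.Poly.const 1
  have c2 : Poly (fun _ : (List (Lit ℕ × Lit ℕ × Lit ℕ) × ℕ) × ℕ => 2) := NPC.Poly.const 2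
  have c3 : Poly (fun _ : (List (Lit ℕ × Lit ℕ × Lit ℕ) × ℕ) × ℕ => 3) := NPC.Poly.const 3
  have c4 : Poly (fun _ : (List (Lit ℕ × Lit ℕ × Lit ℕ) × ℕ) × ℕ => 4) := NPC.Poly.const 4
  exact NPC.Poly.or (Poly.decide_eq hi g4B) (NPC.Poly.or
    (NPC.Poly.and (Poly.decide_lt hj g4B) (NPC.Poly.or
      (NPC.Poly.and (Poly.decide_lt hi g4B) (NPC.Poly.or
        (NPC.Poly.and (Poly.decide_eq hi4 hj4) (Poly.decide_le c2 hi4'))
        (NPC.Poly.and (NPC.Poly.and (Poly.decide_eq hi4' c1)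
            (NPC.Poly.and (Poly.decide_lt hj4' c2) (Poly.decide_lt hj4 gv)))
          (NPC.Poly.or (Poly.decide_eq hi4 (Poly.add gv hj4))
            (NPC.Poly.and (Poly.decide_le g2v hi4) (NPC.Poly.or (poly_isLit hφ hj ho)
              (NPC.Poly.or (poly_isLit hφ hj (Poly.add ho c1))
                (poly_isLit hφ hj (Poly.add ho c2)))))))))
      (NPC.Poly.or
        (NPC.Poly.and (NPC.Poly.or (Poly.decide_eq hi (Poly.add g4B c1))
          (Poly.decide_eq hi (Poly.add g4B c2))) (Poly.decide_lt hj4' c2))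
        (NPC.Poly.and (NPC.Poly.or (Poly.decide_eq hi (Poly.add g4B c3))
          (Poly.decide_eq hi (Poly.add g4B c4)))
          (NPC.Poly.and (Poly.decide_eq hj4' c0) (Poly.decide_lt hj4 gv))))))
    (NPC.Poly.or
      (NPC.Poly.and (Poly.decide_eq hi (Poly.add g4B c1)) (Poly.decide_eq hj (Poly.add g4B c2)))
      (NPC.Poly.and (Poly.decide_eq hi (Poly.add g4B c3)) (Poly.decide_eq hj (Poly.add g4B c4)))))

theorem hardI : HardI BroadcastDim :=
  (HardPr.trans (Pr' := fun _ => True) hardPr_SAT3b red_poly (fun _ _ => trivial)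
    (Q := BroadcastDim) (fun φ hφ => by
      obtain ⟨-, hb, hne⟩ := hφ
      have hm : 1 ≤ φ.length := List.length_pos_iff.2 hne
      have h := graphOf_mat (fun k G => bdim G ≤
          2 * (3 * φ.length) + φ.length + 2 + 3 * φ.length)
        (4 * (2 * (3 * φ.length) + φ.length) + 5) (adj (3 * φ.length) φ.length (vr φ) (sg φ))
      unfold BroadcastDim red
      simp only
      rw [h, sat_iff]
      exact (correct hm (fun o ho => vr_lt hb ho)).symm)).toHardI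

/-- Deciding whether the broadcast dimension is at most `k` is NP-hard. -/
theorem npHard : NPHardP BroadcastDim := hardI.toNPHardP

end Pool.Agent.Helper97_BD
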