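import Pool.Agent.Helper97_BD.Red

/-!
# Broadcast dimension: correctness of the reduction
-/

namespace Pool.Agent.Helper97_BD

open Pool.Agent.NPC Pool.Agent.H420.Gr

variable {v m : ℕ} {var : ℕ → ℕ} {sgn : ℕ → Bool}

/-- The vertices of value `1` for an assignment. -/
def SS (v m : ℕ) (τ : ℕ → Bool) : Finset ℕ :=
  (Finset.range (2 * v + m)).image (fun b => 4 * b + 2) ∪
    ((Finset.range v).image (fun x => 4 * x + if τ x = true then 0 else 1) ∪
      {4 * (2 * v + m) + 1, 4 * (2 * v + m) + 3})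

theorem card_SS (τ : ℕ → Bool) : (SS v m τ).card ≤ 2 * v + m + 2 + v := by
  unfold SS
  refine (Finset.card_union_le _ _).trans ?_
  have h1 : ((Finset.range (2 * v + m)).image (fun b => 4 * b + 2)).card ≤ 2 * v + m := by
    refine Finset.card_image_le.trans ?_
    rw [Finset.card_range]
  have h2 : ((Finset.range v).image (fun x => 4 * x + if τ x = true then 0 else 1) ∪
      {4 * (2 * v + m) + 1, 4 * (2 * v + m) + 3}).card ≤ v + 2 := by
    refine (Finset.card_union_le _ _).trans ?_
    have h3 : ((Finset.range v).image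
        (fun x => 4 * x + if τ x = true then 0 else 1)).card ≤ v := by
      refine Finset.card_image_le.trans ?_
      rw [Finset.card_range]
    have h4 : ({4 * (2 * v + m) + 1, 4 * (2 * v + m) + 3} : Finset ℕ).card ≤ 2 :=
      Finset.card_le_two
    omega
  omega

theorem code_mem {τ : ℕ → Bool} {b : ℕ} (hb : b < 2 * v + m) : 4 * b + 2 ∈ SS v m τ := by
  unfold SS
  exact Finset.mem_union_left _ (Finset.mem_image.2 ⟨b, Finset.mem_range.2 hb, rfl⟩)

theorem lit_mem {τ : ℕ → Bool} {x : ℕ} (hx : x < v) :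
    4 * x + (if τ x = true then 0 else 1) ∈ SS v m τ := by
  unfold SS
  exact Finset.mem_union_right _ (Finset.mem_union_left _
    (Finset.mem_image.2 ⟨x, Finset.mem_range.2 hx, rfl⟩))

theorem g_mem {τ : ℕ → Bool} : 4 * (2 * v + m) + 1 ∈ SS v m τ := by simp [SS]

theorem h_mem {τ : ℕ → Bool} : 4 * (2 * v + m) + 3 ∈ SS v m τ := by simp [SS]

theorem adj_p0' {b : ℕ} (hb : b < 2 * v + m) (hvb : v ≤ b) {i j : Fin (4 * (2 * v + m) + 5)}
    (hi : i.val = 4 * b) (h : j.val ≠ 4 * b) : (HH v m var sgn).Adj i j ↔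
      (j.val / 4 = b ∧ 2 ≤ j.val % 4 ∧ j.val < 4 * (2 * v + m)) ∨ j.val = 4 * (2 * v + m) ∨
        j.val = 4 * (2 * v + m) + 1 ∨ j.val = 4 * (2 * v + m) + 2 := by
  have hlt : 4 * b < 4 * (2 * v + m) + 5 := by omega
  have e : i = ⟨4 * b, hlt⟩ := Fin.ext hi
  rw [e]
  exact adj_p0 hb hvb h

theorem adj_p1v' {x : ℕ} (hx : x < v) {i j : Fin (4 * (2 * v + m) + 5)}
    (hi : i.val = 4 * (v + x) + 1)
    (h : j.val ≠ 4 * (v + x) + 1) : (HH v m var sgn).Adj i j ↔
      ((j.val / 4 = v + x ∧ 2 ≤ j.val % 4 ∧ j.val < 4 * (2 * v + m)) ∨ j.val = 4 * (2 * v + m) ∨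
        j.val = 4 * (2 * v + m) + 1 ∨ j.val = 4 * (2 * v + m) + 2) ∨ j.val = 4 * x ∨
          j.val = 4 * x + 1 := by
  have hlt : 4 * (v + x) + 1 < 4 * (2 * v + m) + 5 := by omega
  have e : i = ⟨4 * (v + x) + 1, hlt⟩ := Fin.ext hi
  rw [e]
  exact adj_p1v hx h

theorem adj_p1c' {c : ℕ} (hc : c < m) {i j : Fin (4 * (2 * v + m) + 5)}
    (hi : i.val = 4 * (2 * v + c) + 1)
    (h : j.val ≠ 4 * (2 * v + c) + 1) : (HH v m var sgn).Adj i j ↔
      ((j.val / 4 = 2 * v + c ∧ 2 ≤ j.val % 4 ∧ j.val < 4 * (2 * v + m)) ∨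
        j.val = 4 * (2 * v + m) ∨
        j.val = 4 * (2 * v + m) + 1 ∨ j.val = 4 * (2 * v + m) + 2) ∨
        (j.val / 4 < v ∧ j.val % 4 < 2 ∧ ∃ r < 3, var (3 * c + r) = j.val / 4 ∧
          sgn (3 * c + r) = decide (j.val % 4 = 0)) := by
  have hlt : 4 * (2 * v + c) + 1 < 4 * (2 * v + m) + 5 := by omega
  have e : i = ⟨4 * (2 * v + c) + 1, hlt⟩ := Fin.ext hi
  rw [e]
  exact adj_p1c hc h

/-- Two vertices outside the set are separated by it. -/
theorem separated (hm : 1 ≤ m) (hvar : ∀ o < 3 * m, var o < v) {τ : ℕ → Bool}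
    (hτ : ∀ c < m, ∃ r < 3, τ (var (3 * c + r)) = sgn (3 * c + r))
    {x y : Fin (4 * (2 * v + m) + 5)} (hxy : x.val < y.val) (hx : x.val ∉ SS v m τ)
    (hy : y.val ∉ SS v m τ) :
    ∃ z : Fin (4 * (2 * v + m) + 5), z.val ∈ SS v m τ ∧
      ¬ ((HH v m var sgn).Adj z x ↔ (HH v m var sgn).Adj z y) := by
  have hv : 1 ≤ v := by
    have := hvar 0 (by omega)
    omega
  have hne : ∀ {i j : ℕ}, i ∉ SS v m τ → j ∈ SS v m τ → i ≠ j := by
    rintro i j hi hj rfl
    exact hi hj
  have hxg : x.val ≠ 4 * (2 * v + m) + 1 := hne hx g_mem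
  have hyg : y.val ≠ 4 * (2 * v + m) + 1 := hne hy g_mem
  have hxh : x.val ≠ 4 * (2 * v + m) + 3 := hne hx h_mem
  have hyh : y.val ≠ 4 * (2 * v + m) + 3 := hne hy h_mem
  have hxc : ∀ b < 2 * v + m, x.val ≠ 4 * b + 2 := fun b hb => hne hx (code_mem hb)
  have hyc : ∀ b < 2 * v + m, y.val ≠ 4 * b + 2 := fun b hb => hne hy (code_mem hb)
  by_cases hyB : y.val < 4 * (2 * v + m)
  · have hxb : x.val / 4 < 2 * v + m := by omega
    have hyb : y.val / 4 < 2 * v + m := by omega
    have hx2 := hxc _ hxb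
    have hy2 := hyc _ hyb
    by_cases hb : x.val / 4 = y.val / 4
    · by_cases ht : y.val % 4 = 3
      · refine ⟨⟨4 * (2 * v + m) + 1, by omega⟩, g_mem, ?_⟩
        rw [adj_g 1 (Or.inl rfl) hxg, adj_g 1 (Or.inl rfl) hyg]
        omega
      · -- the pair of a block
        have hx0 : x.val = 4 * (x.val / 4) := by omega
        have hy1 : y.val = 4 * (x.val / 4) + 1 := by omega
        by_cases hbv : x.val / 4 < v
        · exfalso
          have h := lit_mem (m := m) (τ := τ) hbv
          by_cases hτ' : τ (x.val / 4) = true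
          · rw [if_pos hτ', Nat.add_zero, ← hx0] at h
            exact hx h
          · rw [if_neg hτ', ← hy1] at h
            exact hy h
        · by_cases hb2 : x.val / 4 < 2 * v
          · -- a variable pair
            have hw : x.val / 4 - v < v := by omega
            have h := lit_mem (m := m) (τ := τ) hw
            have hle : (if τ (x.val / 4 - v) = true then 0 else 1) ≤ 1 := by
              split_ifs <;> omega
            obtain ⟨e, he⟩ : ∃ e, e = (if τ (x.val / 4 - v) = true then 0 else 1) := ⟨_, rfl⟩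
            rw [← he] at h hle
            obtain ⟨z, hz⟩ : ∃ z : Fin (4 * (2 * v + m) + 5), z.val = 4 * (x.val / 4 - v) + e :=
              ⟨⟨_, by omega⟩, rfl⟩
            rw [← hz] at h
            refine ⟨z, h, ?_⟩
            rw [SimpleGraph.adj_comm _ _ x, SimpleGraph.adj_comm _ _ y]
            have h1 : ¬ (HH v m var sgn).Adj x z := by
              rw [adj_p0' hxb (by omega) hx0 (by omega)]
              omega
            have h2 : (HH v m var sgn).Adj y z := by
              rw [adj_p1v' hw (by omega) (by omega)]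
              omega
            exact fun h => h1 (h.2 h2)
          · -- a clause pair
            have hc : x.val / 4 - 2 * v < m := by omega
            obtain ⟨r, hr, hr'⟩ := hτ _ hc
            have hw := hvar (3 * (x.val / 4 - 2 * v) + r) (by omega)
            have h := lit_mem (m := m) (τ := τ) hw
            obtain ⟨w, hww⟩ : ∃ w, w = var (3 * (x.val / 4 - 2 * v) + r) := ⟨_, rfl⟩
            rw [← hww] at h hw hr'
            have hle : (if τ w = true then 0 else 1) ≤ 1 := by
              split_ifs <;> omega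
            obtain ⟨e, he⟩ : ∃ e, e = (if τ w = true then 0 else 1) := ⟨_, rfl⟩
            rw [← he] at h hle
            obtain ⟨z, hz⟩ : ∃ z : Fin (4 * (2 * v + m) + 5), z.val = 4 * w + e :=
              ⟨⟨_, by omega⟩, rfl⟩
            rw [← hz] at h
            refine ⟨z, h, ?_⟩
            rw [SimpleGraph.adj_comm _ _ x, SimpleGraph.adj_comm _ _ y]
            have h1 : ¬ (HH v m var sgn).Adj x z := by
              rw [adj_p0' hxb (by omega) hx0 (by omega)]
              omega
            have h2 : (HH v m var sgn).Adj y z := by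
              rw [adj_p1c' hc (by omega) (by omega)]
              refine Or.inr ⟨by omega, by omega, r, hr, ?_, ?_⟩
              · rw [← hww]
                omega
              · rw [← hr']
                by_cases hτw : τ w = true
                · rw [if_pos hτw] at he
                  rw [hτw, eq_comm, decide_eq_true_eq]
                  omega
                · rw [if_neg hτw] at he
                  rw [Bool.not_eq_true] at hτw
                  rw [hτw, eq_comm, decide_eq_false_iff_not]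
                  omega
            exact fun h => h1 (h.2 h2)
    · refine ⟨⟨4 * (x.val / 4) + 2, by omega⟩, code_mem hxb, ?_⟩
      have hy3 : y.val ≠ 4 * (x.val / 4) + 2 := hyc _ hxb
      rw [adj_code hxb hx2, adj_code hxb hy3]
      omega
  · by_cases hxB : x.val < 4 * (2 * v + m)
    · have hxb : x.val / 4 < 2 * v + m := by omega
      by_cases hyw : y.val = 4 * (2 * v + m)
      · by_cases h0 : x.val / 4 = 0
        · refine ⟨⟨4 * 1 + 2, by omega⟩, code_mem (by omega), ?_⟩
          rw [adj_code (b := 1) (by omega) (hxc _ (by omega)),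
            adj_code (b := 1) (by omega) (hyc _ (by omega))]
          omega
        · refine ⟨⟨4 * 0 + 2, by omega⟩, code_mem (by omega), ?_⟩
          rw [adj_code (b := 0) (by omega) (hxc _ (by omega)),
            adj_code (b := 0) (by omega) (hyc _ (by omega))]
          omega
      · refine ⟨⟨4 * (x.val / 4) + 2, by omega⟩, code_mem hxb, ?_⟩
        rw [adj_code hxb (hxc _ hxb), adj_code hxb (hyc _ hxb)]
        omega
    · have hyN := y.2
      by_cases hcase : y.val = 4 * (2 * v + m) + 2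
      · refine ⟨⟨4 * (2 * v + m) + 3, by omega⟩, h_mem, ?_⟩
        rw [adj_h 3 (Or.inl rfl) hxh, adj_h 3 (Or.inl rfl) hyh]
        omega
      · refine ⟨⟨4 * (2 * v + m) + 1, by omega⟩, g_mem, ?_⟩
        rw [adj_g 1 (Or.inl rfl) hxg, adj_g 1 (Or.inl rfl) hyg]
        omega

theorem exists_of_sat (hm : 1 ≤ m) (hvar : ∀ o < 3 * m, var o < v)
    (h : ∃ τ : ℕ → Bool, ∀ c < m, ∃ r < 3, τ (var (3 * c + r)) = sgn (3 * c + r)) :
    ∃ f : Fin (4 * (2 * v + m) + 5) → ℕ, IsResolvingBroadcast (HH v m var sgn) f ∧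
      ∑ i, f i ≤ 2 * v + m + 2 + v := by
  classical
  obtain ⟨τ, hτ⟩ := h
  refine ⟨fun i => if i.val ∈ SS v m τ then 1 else 0, ?_, ?_⟩
  · intro x y hxy
    have key : ∃ z : Fin (4 * (2 * v + m) + 5), z.val ∈ SS v m τ ∧
        (z = x ∨ z = y ∨ ¬ ((HH v m var sgn).Adj z x ↔ (HH v m var sgn).Adj z y)) := by
      by_cases hx : x.val ∈ SS v m τ
      · exact ⟨x, hx, Or.inl rfl⟩
      by_cases hy : y.val ∈ SS v m τ
      · exact ⟨y, hy, Or.inr (Or.inl rfl)⟩
      rcases lt_or_gt_of_ne (fun h => hxy (Fin.ext h) : x.val ≠ y.val) with hlt | hlt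
      · obtain ⟨z, hz, h⟩ := separated hm hvar hτ hlt hx hy
        exact ⟨z, hz, Or.inr (Or.inr h)⟩
      · obtain ⟨z, hz, h⟩ := separated hm hvar hτ hlt hy hx
        exact ⟨z, hz, Or.inr (Or.inr (fun h' => h h'.symm))⟩
    obtain ⟨z, hz, hz'⟩ := key
    refine ⟨z, ?_, ?_⟩
    · simp only [hz, if_true]
      exact Nat.one_pos
    · simp only [hz, if_true]
      exact resolves_of Nat.one_pos hxy hz'
  · refine le_trans ?_ (card_SS τ)
    rw [← Finset.card_filter]
    refine Finset.card_le_card_of_injOn Fin.val ?_ (fun a _ b _ h => Fin.ext h)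
    intro i hi
    simpa using hi

/-! ### From a resolving broadcast to an assignment -/

theorem sum_blocks (F : ℕ → ℕ) (B : ℕ) : ∑ i ∈ Finset.range (4 * B), F i =
    ∑ b ∈ Finset.range B, ((F (4 * b) + F (4 * b + 1)) + (F (4 * b + 2) + F (4 * b + 3))) := by
  induction B with
  | zero => simp
  | succ B ih =>
    have e : 4 * (B + 1) = 4 * B + 1 + 1 + 1 + 1 := by ring
    rw [e, Finset.sum_range_succ, Finset.sum_range_succ, Finset.sum_range_succ,
      Finset.sum_range_succ, ih, Finset.sum_range_succ]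
    ring

theorem sat_of {f : Fin (4 * (2 * v + m) + 5) → ℕ}
    (hf : IsResolvingBroadcast (HH v m var sgn) f) (hs : ∑ i, f i ≤ 2 * v + m + 2 + v) :
    ∃ τ : ℕ → Bool, ∀ c < m, ∃ r < 3, τ (var (3 * c + r)) = sgn (3 * c + r) := by
  classical
  -- the extension of `f` by zero
  obtain ⟨F, hF⟩ : ∃ F : ℕ → ℕ, ∀ i : Fin (4 * (2 * v + m) + 5), F i.val = f i :=
    ⟨fun i => if h : i < 4 * (2 * v + m) + 5 then f ⟨i, h⟩ else 0, fun i => by simp [i.2]⟩
  have hsum : ∑ i ∈ Finset.range (4 * (2 * v + m) + 5), F i ≤ 2 * v + m + 2 + v := by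
    rw [Finset.sum_range]
    simp only [hF]
    exact hs
  -- resolving pairs
  have R : ∀ i j : ℕ, i < 4 * (2 * v + m) + 5 → j < 4 * (2 * v + m) + 5 → i ≠ j →
      ∀ P : ℕ → Prop, (∀ z : Fin (4 * (2 * v + m) + 5), z.val ≠ i → z.val ≠ j →
        (∀ hi : i < 4 * (2 * v + m) + 5, ∀ hj : j < 4 * (2 * v + m) + 5,
        ¬ ((HH v m var sgn).Adj ⟨i, hi⟩ z ↔ (HH v m var sgn).Adj ⟨j, hj⟩ z)) → P z.val) →
      0 < F i ∨ 0 < F j ∨ ∃ z : ℕ, 0 < F z ∧ P z := by
    intro i j hi hj hij P hP
    obtain ⟨z, hz, hz'⟩ := hf ⟨i, hi⟩ ⟨j, hj⟩ (fun h => hij (congrArg Fin.val h))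
    rw [← hF z] at hz
    have := of_resolves (u := ⟨4 * (2 * v + m), by omega⟩) universal hz'
    by_cases h1 : z.val = i
    · left; rw [← h1]; exact hz
    by_cases h2 : z.val = j
    · right; left; rw [← h2]; exact hz
    right; right
    refine ⟨z.val, hz, hP z h1 h2 (fun _ _ h => ?_)⟩
    rcases this with h' | h' | h'
    · exact h1 (congrArg Fin.val h')
    · exact h2 (congrArg Fin.val h')
    · rw [SimpleGraph.adj_comm _ z, SimpleGraph.adj_comm _ z] at h'
      exact h' h
  have hQ : ∀ b < 2 * v + m, 1 ≤ F (4 * b + 2) + F (4 * b + 3) := by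
    intro b hb
    rcases R (4 * b + 2) (4 * b + 3) (by omega) (by omega) (by omega) (fun _ => False)
      (fun z h1 h2 h => h _ _ (by rw [adj_code hb h1, adj_code' hb h2])) with h | h | ⟨_, _, h⟩
    · omega
    · omega
    · exact h.elim
  have hG : 1 ≤ F (4 * (2 * v + m) + 1) + F (4 * (2 * v + m) + 2) := by
    rcases R (4 * (2 * v + m) + 1) (4 * (2 * v + m) + 2) (by omega) (by omega) (by omega)
      (fun _ => False) (fun z h1 h2 h => h _ _ (by
        rw [adj_g 1 (Or.inl rfl) h1, adj_g 2 (Or.inr rfl) h2])) with h | h | ⟨_, _, h⟩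
    · omega
    · omega
    · exact h.elim
  have hH : 1 ≤ F (4 * (2 * v + m) + 3) + F (4 * (2 * v + m) + 4) := by
    rcases R (4 * (2 * v + m) + 3) (4 * (2 * v + m) + 4) (by omega) (by omega) (by omega)
      (fun _ => False) (fun z h1 h2 h => h _ _ (by
        rw [adj_h 3 (Or.inl rfl) h1, adj_h 4 (Or.inr rfl) h2])) with h | h | ⟨_, _, h⟩
    · omega
    · omega
    · exact h.elim
  have hP : ∀ x < v, 1 ≤ (F (4 * x) + F (4 * x + 1)) + (F (4 * (v + x)) + F (4 * (v + x) + 1)) := by
    intro x hx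
    rcases R (4 * (v + x)) (4 * (v + x) + 1) (by omega) (by omega) (by omega)
      (fun z => z = 4 * x ∨ z = 4 * x + 1) (fun z h1 h2 h => by
        by_contra hcon
        push Not at hcon
        refine h (by omega) (by omega) ?_
        rw [adj_p0' (by omega) (by omega) rfl h1, adj_p1v' hx rfl h2]
        omega) with h | h | ⟨z, hz, h | h⟩
    · omega
    · omega
    · subst h; omega
    · subst h; omega
  -- the sum
  rw [Finset.sum_range_succ, Finset.sum_range_succ, Finset.sum_range_succ, Finset.sum_range_succ,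
    Finset.sum_range_succ, sum_blocks, Finset.sum_add_distrib] at hsum
  have e2 : 2 * v + m = v + (v + m) := by ring
  have hsP : ∑ b ∈ Finset.range (2 * v + m), (F (4 * b) + F (4 * b + 1)) =
      ∑ x ∈ Finset.range v, ((F (4 * x) + F (4 * x + 1)) +
        (F (4 * (v + x)) + F (4 * (v + x) + 1))) +
      ∑ c ∈ Finset.range m, (F (4 * (2 * v + c)) + F (4 * (2 * v + c) + 1)) := by
    rw [e2, Finset.sum_range_add, Finset.sum_range_add, ← add_assoc, ← Finset.sum_add_distrib]
    have e3 : ∀ c, v + (v + c) = 2 * v + c := fun c => by ring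
    simp only [e3]
  have hsQ : 2 * v + m ≤ ∑ b ∈ Finset.range (2 * v + m), (F (4 * b + 2) + F (4 * b + 3)) := by
    calc 2 * v + m = ∑ b ∈ Finset.range (2 * v + m), 1 := by simp
      _ ≤ _ := Finset.sum_le_sum fun b hb => hQ b (Finset.mem_range.1 hb)
  have hsV : v ≤ ∑ x ∈ Finset.range v, ((F (4 * x) + F (4 * x + 1)) +
        (F (4 * (v + x)) + F (4 * (v + x) + 1))) := by
    calc v = ∑ b ∈ Finset.range v, 1 := by simp
      _ ≤ _ := Finset.sum_le_sum fun b hb => hP b (Finset.mem_range.1 hb)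
  have hV1 : ∀ x < v, (F (4 * x) + F (4 * x + 1)) +
      (F (4 * (v + x)) + F (4 * (v + x) + 1)) = 1 := by
    intro x hx
    by_contra hne
    have h2 := hP x hx
    have h3 : ∑ b ∈ Finset.range v, 1 < ∑ x ∈ Finset.range v, ((F (4 * x) + F (4 * x + 1)) +
        (F (4 * (v + x)) + F (4 * (v + x) + 1))) :=
      Finset.sum_lt_sum (fun b hb => hP b (Finset.mem_range.1 hb))
        ⟨x, Finset.mem_range.2 hx, by omega⟩
    simp only [Finset.sum_const, Finset.card_range, smul_eq_mul, mul_one] at h3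
    omega
  have hC0 : ∑ c ∈ Finset.range m, (F (4 * (2 * v + c)) + F (4 * (2 * v + c) + 1)) = 0 := by
    omega
  rw [Finset.sum_eq_zero_iff] at hC0
  have hw0 : F (4 * (2 * v + m)) = 0 := by omega
  have hG1 : F (4 * (2 * v + m) + 1) + F (4 * (2 * v + m) + 2) = 1 := by omega
  refine ⟨fun x => decide (0 < F (4 * x)), fun c hc => ?_⟩
  have hc0 := hC0 c (Finset.mem_range.2 hc)
  rcases R (4 * (2 * v + c)) (4 * (2 * v + c) + 1) (by omega) (by omega) (by omega)
      (fun z => z / 4 < v ∧ z % 4 < 2 ∧ ∃ r < 3, var (3 * c + r) = z / 4 ∧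
          sgn (3 * c + r) = decide (z % 4 = 0)) (fun z h1 h2 h => by
        by_contra hcon
        refine h (by omega) (by omega) ?_
        rw [adj_p0' (by omega) (by omega) rfl h1, adj_p1c' hc rfl h2]
        constructor
        · intro h; exact Or.inl h
        · rintro (h | h)
          · exact h
          · exact absurd h hcon) with h | h | ⟨z, hz, hzv, hz4, r, hr, hr1, hr2⟩
  · omega
  · omega
  · refine ⟨r, hr, ?_⟩
    have h1 := hV1 _ hzv
    have hz5 : z = 4 * (z / 4) ∨ z = 4 * (z / 4) + 1 := by omega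
    simp only
    rw [hr1, hr2]
    rcases hz5 with h | h
    · rw [← h]
      have : z % 4 = 0 := by omega
      simp [this, hz]
    · have h3 : F (4 * (z / 4)) = 0 := by
        rw [← h] at h1
        omega
      have : z % 4 ≠ 0 := by omega
      simp [this, h3]

end Pool.Agent.Helper97_BD
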