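import Pool.Agent.Helper97_BD.Defs

/-!
# Broadcast dimension: the reduction from 3SAT

There are `B = 2 v + m` blocks of four vertices (`v` variables, `m` clauses): the block number `b`
consists of a pair `4 b`, `4 b + 1` and of two code vertices `4 b + 2`, `4 b + 3`, which are
adjacent to each other and to the pair.  For `x < v` the pair of block `x` are the two literals of
the variable `x`; the pair of block `v + x` is resolved only by itself and by the two literals of
`x`; the pair of block `2 v + c` is resolved only by itself and by the three literals of the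
clause `c`.  Five more vertices: `4 B` is universal; `4 B + 1`, `4 B + 2` are adjacent to each other
and to the vertices of all pairs; `4 B + 3`, `4 B + 4` are adjacent to each other and to all positive
literals.
-/

namespace Pool.Agent.Helper97_BD

open Pool.Agent.NPC Pool.Agent.H420.Gr

/-- The literal vertex `j` is the literal number `o` of the formula. -/
def isLit (var : ℕ → ℕ) (sgn : ℕ → Bool) (j o : ℕ) : Bool :=
  decide (var o = j / 4) && decide (sgn o = decide (j % 4 = 0))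

/-- One half of the adjacency of the graph of the reduction. -/
def adj (v m : ℕ) (var : ℕ → ℕ) (sgn : ℕ → Bool) (i j : ℕ) : Bool :=
  decide (i = 4 * (2 * v + m)) ||
  ((decide (j < 4 * (2 * v + m)) &&
    ((decide (i < 4 * (2 * v + m)) &&
      ((decide (i / 4 = j / 4) && decide (2 ≤ i % 4)) ||
       ((decide (i % 4 = 1) && (decide (j % 4 < 2) && decide (j / 4 < v))) &&
         (decide (i / 4 = v + j / 4) ||
          (decide (2 * v ≤ i / 4) &&
            (isLit var sgn j (3 * (i / 4 - 2 * v)) ||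
              (isLit var sgn j (3 * (i / 4 - 2 * v) + 1) ||
                isLit var sgn j (3 * (i / 4 - 2 * v) + 2)))))))) ||
    (((decide (i = 4 * (2 * v + m) + 1) || decide (i = 4 * (2 * v + m) + 2)) &&
      decide (j % 4 < 2)) ||
     ((decide (i = 4 * (2 * v + m) + 3) || decide (i = 4 * (2 * v + m) + 4)) &&
      (decide (j % 4 = 0) && decide (j / 4 < v)))))) ||
  ((decide (i = 4 * (2 * v + m) + 1) && decide (j = 4 * (2 * v + m) + 2)) ||
   (decide (i = 4 * (2 * v + m) + 3) && decide (j = 4 * (2 * v + m) + 4))))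

/-- The adjacency as a proposition. -/
def AdjP (v m : ℕ) (var : ℕ → ℕ) (sgn : ℕ → Bool) (i j : ℕ) : Prop :=
  i = 4 * (2 * v + m) ∨
  (j < 4 * (2 * v + m) ∧
    ((i < 4 * (2 * v + m) ∧
      ((i / 4 = j / 4 ∧ 2 ≤ i % 4) ∨
       ((i % 4 = 1 ∧ j % 4 < 2 ∧ j / 4 < v) ∧
         (i / 4 = v + j / 4 ∨
          (2 * v ≤ i / 4 ∧ ∃ r < 3, var (3 * (i / 4 - 2 * v) + r) = j / 4 ∧
            sgn (3 * (i / 4 - 2 * v) + r) = decide (j % 4 = 0)))))) ∨
    (((i = 4 * (2 * v + m) + 1 ∨ i = 4 * (2 * v + m) + 2) ∧ j % 4 < 2) ∨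
     ((i = 4 * (2 * v + m) + 3 ∨ i = 4 * (2 * v + m) + 4) ∧ (j % 4 = 0 ∧ j / 4 < v))))) ∨
  ((i = 4 * (2 * v + m) + 1 ∧ j = 4 * (2 * v + m) + 2) ∨
   (i = 4 * (2 * v + m) + 3 ∧ j = 4 * (2 * v + m) + 4))

theorem adj_iff {v m : ℕ} {var : ℕ → ℕ} {sgn : ℕ → Bool} {i j : ℕ} :
    adj v m var sgn i j = true ↔ AdjP v m var sgn i j := by
  have h3 : (isLit var sgn j (3 * (i / 4 - 2 * v)) ||
              (isLit var sgn j (3 * (i / 4 - 2 * v) + 1) ||
                isLit var sgn j (3 * (i / 4 - 2 * v) + 2))) = true ↔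
      ∃ r < 3, var (3 * (i / 4 - 2 * v) + r) = j / 4 ∧
            sgn (3 * (i / 4 - 2 * v) + r) = decide (j % 4 = 0) := by
    unfold isLit
    simp only [Bool.or_eq_true, Bool.and_eq_true, decide_eq_true_eq]
    constructor
    · rintro (h | h | h)
      · exact ⟨0, by norm_num, h⟩
      · exact ⟨1, by norm_num, h⟩
      · exact ⟨2, by norm_num, h⟩
    · rintro ⟨r, hr, h⟩
      have : r = 0 ∨ r = 1 ∨ r = 2 := by omega
      rcases this with rfl | rfl | rfl
      · exact Or.inl h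
      · exact Or.inr (Or.inl h)
      · exact Or.inr (Or.inr h)
  unfold adj AdjP
  rw [← h3]
  simp only [Bool.or_eq_true, Bool.and_eq_true, decide_eq_true_eq]

variable {v m : ℕ} {var : ℕ → ℕ} {sgn : ℕ → Bool}

/-- The graph of the reduction. -/
abbrev HH (v m : ℕ) (var : ℕ → ℕ) (sgn : ℕ → Bool) : SimpleGraph (Fin (4 * (2 * v + m) + 5)) :=
  eGraph (4 * (2 * v + m) + 5) (adj v m var sgn)

theorem hh_iff {i j : Fin (4 * (2 * v + m) + 5)} : (HH v m var sgn).Adj i j ↔
    i.val ≠ j.val ∧ (AdjP v m var sgn i j ∨ AdjP v m var sgn j i) := by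
  unfold HH eGraph
  simp only [adj_iff, ne_eq, Fin.ext_iff]

theorem universal (j : Fin (4 * (2 * v + m) + 5)) (hj : j ≠ ⟨4 * (2 * v + m), by omega⟩) :
    (HH v m var sgn).Adj ⟨4 * (2 * v + m), by omega⟩ j := by
  rw [hh_iff]
  refine ⟨fun h => hj (Fin.ext h.symm), Or.inl (Or.inl rfl)⟩

/-! ### Adjacencies of the special vertices -/

theorem adj_code {b : ℕ} (hb : b < 2 * v + m) {j : Fin (4 * (2 * v + m) + 5)}
    (h : j.val ≠ 4 * b + 2) : (HH v m var sgn).Adj ⟨4 * b + 2, by omega⟩ j ↔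
      j.val / 4 = b ∨ j.val = 4 * (2 * v + m) := by
  rw [hh_iff]
  simp only [AdjP]
  constructor
  · rintro ⟨_, h | h⟩ <;> omega
  · intro h'
    refine ⟨h.symm, ?_⟩
    rcases h' with h' | h'
    · left; right; left
      exact ⟨by omega, Or.inl ⟨by omega, Or.inl ⟨by omega, by omega⟩⟩⟩
    · right; left; exact h'

theorem adj_code' {b : ℕ} (hb : b < 2 * v + m) {j : Fin (4 * (2 * v + m) + 5)}
    (h : j.val ≠ 4 * b + 3) : (HH v m var sgn).Adj ⟨4 * b + 3, by omega⟩ j ↔
      j.val / 4 = b ∨ j.val = 4 * (2 * v + m) := by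
  rw [hh_iff]
  simp only [AdjP]
  constructor
  · rintro ⟨_, h | h⟩ <;> omega
  · intro h'
    refine ⟨h.symm, ?_⟩
    rcases h' with h' | h'
    · left; right; left
      exact ⟨by omega, Or.inl ⟨by omega, Or.inl ⟨by omega, by omega⟩⟩⟩
    · right; left; exact h'

theorem adj_g {j : Fin (4 * (2 * v + m) + 5)} (s : ℕ) (hs : s = 1 ∨ s = 2)
    (h : j.val ≠ 4 * (2 * v + m) + s) :
    (HH v m var sgn).Adj ⟨4 * (2 * v + m) + s, by omega⟩ j ↔
      (j.val < 4 * (2 * v + m) ∧ j.val % 4 < 2) ∨ j.val = 4 * (2 * v + m) ∨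
        j.val = 4 * (2 * v + m) + 1 ∨ j.val = 4 * (2 * v + m) + 2 := by
  rw [hh_iff]
  simp only [AdjP]
  constructor
  · rintro ⟨_, h | h⟩ <;> omega
  · intro h'
    refine ⟨h.symm, ?_⟩
    rcases h' with h' | h' | h' | h'
    · left; right; left
      exact ⟨by omega, Or.inr (Or.inl ⟨by omega, by omega⟩)⟩
    · right; left; exact h'
    · right; right; right; left; omega
    · left; right; right; left; omega

theorem adj_h {j : Fin (4 * (2 * v + m) + 5)} (s : ℕ) (hs : s = 3 ∨ s = 4)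
    (h : j.val ≠ 4 * (2 * v + m) + s) :
    (HH v m var sgn).Adj ⟨4 * (2 * v + m) + s, by omega⟩ j ↔
      (j.val / 4 < v ∧ j.val % 4 = 0) ∨ j.val = 4 * (2 * v + m) ∨
        j.val = 4 * (2 * v + m) + 3 ∨ j.val = 4 * (2 * v + m) + 4 := by
  rw [hh_iff]
  simp only [AdjP]
  constructor
  · rintro ⟨_, h | h⟩ <;> omega
  · intro h'
    refine ⟨h.symm, ?_⟩
    rcases h' with h' | h' | h' | h'
    · left; right; left
      exact ⟨by omega, Or.inr (Or.inr ⟨by omega, by omega⟩)⟩
    · right; left; exact h'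
    · right; right; right; right; omega
    · left; right; right; right; omega

/-! ### Adjacencies of the pairs of the variable and clause blocks -/

theorem adj_p0 {b : ℕ} (hb : b < 2 * v + m) (hvb : v ≤ b) {j : Fin (4 * (2 * v + m) + 5)}
    (h : j.val ≠ 4 * b) : (HH v m var sgn).Adj ⟨4 * b, by omega⟩ j ↔
      (j.val / 4 = b ∧ 2 ≤ j.val % 4 ∧ j.val < 4 * (2 * v + m)) ∨ j.val = 4 * (2 * v + m) ∨
        j.val = 4 * (2 * v + m) + 1 ∨ j.val = 4 * (2 * v + m) + 2 := by
  rw [hh_iff]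
  simp only [AdjP]
  constructor
  · rintro ⟨_, h | h⟩ <;> omega
  · intro h'
    refine ⟨h.symm, ?_⟩
    rcases h' with h' | h' | h'
    · right; right; left
      exact ⟨by omega, Or.inl ⟨by omega, Or.inl ⟨by omega, by omega⟩⟩⟩
    · right; left; exact h'
    · right; right; left
      exact ⟨by omega, Or.inr (Or.inl ⟨by omega, by omega⟩)⟩

theorem adj_p1v {x : ℕ} (hx : x < v) {j : Fin (4 * (2 * v + m) + 5)}
    (h : j.val ≠ 4 * (v + x) + 1) : (HH v m var sgn).Adj ⟨4 * (v + x) + 1, by omega⟩ j ↔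
      ((j.val / 4 = v + x ∧ 2 ≤ j.val % 4 ∧ j.val < 4 * (2 * v + m)) ∨ j.val = 4 * (2 * v + m) ∨
        j.val = 4 * (2 * v + m) + 1 ∨ j.val = 4 * (2 * v + m) + 2) ∨ j.val = 4 * x ∨
          j.val = 4 * x + 1 := by
  rw [hh_iff]
  simp only [AdjP]
  constructor
  · rintro ⟨_, h | h⟩ <;> omega
  · intro h'
    refine ⟨h.symm, ?_⟩
    rcases h' with (h' | h' | h') | h'
    · right; right; left
      exact ⟨by omega, Or.inl ⟨by omega, Or.inl ⟨by omega, by omega⟩⟩⟩
    · right; left; exact h'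
    · right; right; left
      exact ⟨by omega, Or.inr (Or.inl ⟨by omega, by omega⟩)⟩
    · left; right; left
      exact ⟨by omega, Or.inl ⟨by omega, Or.inr ⟨⟨by omega, by omega, by omega⟩,
        Or.inl (by omega)⟩⟩⟩

theorem adj_p1c {c : ℕ} (hc : c < m) {j : Fin (4 * (2 * v + m) + 5)}
    (h : j.val ≠ 4 * (2 * v + c) + 1) : (HH v m var sgn).Adj ⟨4 * (2 * v + c) + 1, by omega⟩ j ↔
      ((j.val / 4 = 2 * v + c ∧ 2 ≤ j.val % 4 ∧ j.val < 4 * (2 * v + m)) ∨
        j.val = 4 * (2 * v + m) ∨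
        j.val = 4 * (2 * v + m) + 1 ∨ j.val = 4 * (2 * v + m) + 2) ∨
        (j.val / 4 < v ∧ j.val % 4 < 2 ∧ ∃ r < 3, var (3 * c + r) = j.val / 4 ∧
          sgn (3 * c + r) = decide (j.val % 4 = 0)) := by
  have e1 : (4 * (2 * v + c) + 1) / 4 = 2 * v + c := by omega
  have e2 : 2 * v + c - 2 * v = c := by omega
  rw [hh_iff]
  simp only [AdjP, e1, e2]
  constructor
  · rintro ⟨_, h | h⟩
    · rcases h with h | ⟨h1, h | h⟩ | h
      · omega
      · rcases h with ⟨h2, h | ⟨h3, h4 | h5⟩⟩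
        · omega
        · omega
        · exact Or.inr ⟨h3.2.2, h3.2.1, h5.2⟩
      · omega
      · omega
    · omega
  · intro h'
    refine ⟨h.symm, ?_⟩
    rcases h' with (h' | h' | h') | h'
    · right; right; left
      exact ⟨by omega, Or.inl ⟨by omega, Or.inl ⟨by omega, by omega⟩⟩⟩
    · right; left; exact h'
    · right; right; left
      exact ⟨by omega, Or.inr (Or.inl ⟨by omega, by omega⟩)⟩
    · left; right; left
      exact ⟨by omega, Or.inl ⟨by omega, Or.inr ⟨⟨by omega, h'.2.1, h'.1⟩,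
        Or.inr ⟨by omega, h'.2.2⟩⟩⟩⟩

end Pool.Agent.Helper97_BD
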